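import Pool.Agent.TH522.DG.Local
import Pool.Agent.Run7.h881.GP.Fin
import Pool.Agent.Run7.h881.GP.Perf

/-!
Perfect solutions of the pairwise semidefinite program of projection games from pseudo-expectations
of formulas and local honest labelings.
-/

set_option autoImplicit false
set_option linter.unusedSectionVars false

namespace Pool.Agent.Run7.h250.LR

open Finset Pool.Agent.W888.GX Pool.Agent.TH522.DG Pool.Agent.TH700.UG Pool.Agent.H562R2

open scoped MatrixOrder Matrix.Norms.L2Operator in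
theorem psd_factor {J : Type} [Fintype J] (G : Matrix J J ℝ) (h : G.PosSemidef) :
    ∃ w : J → J → ℝ, ∀ i j, w i ⬝ᵥ w j = G i j := by
  classical
  obtain ⟨B, hB⟩ := CStarAlgebra.nonneg_iff_eq_star_mul_self.mp h.nonneg
  refine ⟨fun j k => B k j, fun i j => ?_⟩
  have h3 := congrFun (congrFun hB i) j
  rw [Matrix.star_eq_conjTranspose, Matrix.mul_apply] at h3
  rw [h3]
  simp only [dotProduct, Matrix.conjTranspose_apply, star_trivial]

/-- vectors with a given positive semidefinite Gram matrix -/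
theorem vectors {J X : Type} [Fintype J] (L : (X → ℝ) →ₗ[ℝ] ℝ) (φ : J → X → ℝ)
    (hpos : ∀ c : J → ℝ, 0 ≤ L (fun z => (∑ j, c j * φ j z) ^ 2)) :
    ∃ w : J → J → ℝ, ∀ i j, w i ⬝ᵥ w j = L (fun z => φ i z * φ j z) := by
  classical
  refine psd_factor (Matrix.of fun i j => L (fun z => φ i z * φ j z)) ?_
  refine Matrix.PosSemidef.of_dotProduct_mulVec_nonneg ?_ ?_
  · ext i j
    simp only [Matrix.conjTranspose_apply, Matrix.of_apply, star_trivial]
    congr 1
    funext z
    ring
  · intro c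
    have h1 : star c ⬝ᵥ ((Matrix.of fun i j => L (fun z => φ i z * φ j z)).mulVec c) =
        L (fun z => (∑ j, c j * φ j z) ^ 2) := by
      have h2 : (fun z => (∑ j, c j * φ j z) ^ 2) =
          ∑ i, c i • ∑ j, c j • fun z => φ i z * φ j z := by
        funext z
        rw [Finset.sum_apply, sq, Finset.sum_mul_sum]
        refine Finset.sum_congr rfl fun i _ => ?_
        rw [Pi.smul_apply, Finset.sum_apply, smul_eq_mul, Finset.mul_sum]
        refine Finset.sum_congr rfl fun j _ => ?_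
        rw [Pi.smul_apply, smul_eq_mul]
        ring
      rw [h2, map_sum, star_trivial]
      simp only [dotProduct, Matrix.mulVec]
      refine Finset.sum_congr rfl fun i _ => ?_
      rw [map_smul, map_sum, smul_eq_mul]
      congr 1
      refine Finset.sum_congr rfl fun j _ => ?_
      rw [map_smul, smul_eq_mul, Matrix.of_apply, mul_comm]
    rw [h1]
    exact hpos c

theorem eq_of_dots {J : Type} [Fintype J] {X Y : J → ℝ} (h1 : X ⬝ᵥ X = 1) (h2 : X ⬝ᵥ Y = 1)
    (h3 : Y ⬝ᵥ Y = 1) : X = Y := by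
  have h4 : (X - Y) ⬝ᵥ (X - Y) = 0 := by
    rw [sub_dotProduct, dotProduct_sub, dotProduct_sub, dotProduct_comm Y X, h1, h2, h3]
    ring
  exact sub_eq_zero.1 (dotProduct_self_eq_zero.1 h4)

section
variable {n D0 D kk : ℕ} {L : ((Fin n → ZMod 2) → ℝ) →ₗ[ℝ] ℝ} {U V A B E I : Type} [Fintype U]
  [Fintype V] [Fintype A] [Fintype B] [Fintype E]

/-- indicator functions of the labels -/
noncomputable def ph (encU : (Fin n → ZMod 2) → U → A) (encV : (Fin n → ZMod 2) → V → B) :
    (U × A) ⊕ (V × B) → (Fin n → ZMod 2) → ℝ := by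
  classical
  exact Sum.elim (fun p z => if encU z p.1 = p.2 then 1 else 0)
    (fun q z => if encV z q.1 = q.2 then 1 else 0)

theorem ph_sq (encU : (Fin n → ZMod 2) → U → A) (encV : (Fin n → ZMod 2) → V → B)
    (j : (U × A) ⊕ (V × B)) (z : Fin n → ZMod 2) : ph encU encV j z ^ 2 = ph encU encV j z := by
  classical
  rcases j with p | q
  · show (if encU z p.1 = p.2 then (1 : ℝ) else 0) ^ 2 = if encU z p.1 = p.2 then 1 else 0
    split_ifs <;> norm_num
  · show (if encV z q.1 = q.2 then (1 : ℝ) else 0) ^ 2 = if encV z q.1 = q.2 then 1 else 0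
    split_ifs <;> norm_num

theorem ph_sumU (encU : (Fin n → ZMod 2) → U → A) (encV : (Fin n → ZMod 2) → V → B) (i : U)
    (z : Fin n → ZMod 2) : ∑ a, ph encU encV (Sum.inl (i, a)) z = 1 := by
  classical
  show ∑ a, (if encU z i = a then (1 : ℝ) else 0) = 1
  rw [Finset.sum_ite_eq, if_pos (mem_univ _)]

theorem ph_sumV (encU : (Fin n → ZMod 2) → U → A) (encV : (Fin n → ZMod 2) → V → B) (i : V)
    (z : Fin n → ZMod 2) : ∑ a, ph encU encV (Sum.inr (i, a)) z = 1 := by
  classical
  show ∑ a, (if encV z i = a then (1 : ℝ) else 0) = 1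
  rw [Finset.sum_ite_eq, if_pos (mem_univ _)]

theorem ph_inl_one (encU : (Fin n → ZMod 2) → U → A) (encV : (Fin n → ZMod 2) → V → B) {i : U}
    {a : A} {z : Fin n → ZMod 2} (h : encU z i = a) : ph encU encV (Sum.inl (i, a)) z = 1 := by
  classical
  show (if encU z i = a then (1 : ℝ) else 0) = 1
  rw [if_pos h]

theorem ph_inl_zero (encU : (Fin n → ZMod 2) → U → A) (encV : (Fin n → ZMod 2) → V → B) {i : U}
    {a : A} {z : Fin n → ZMod 2} (h : encU z i ≠ a) : ph encU encV (Sum.inl (i, a)) z = 0 := by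
  classical
  show (if encU z i = a then (1 : ℝ) else 0) = 0
  rw [if_neg h]

theorem ph_inr_one (encU : (Fin n → ZMod 2) → U → A) (encV : (Fin n → ZMod 2) → V → B) {i : V}
    {a : B} {z : Fin n → ZMod 2} (h : encV z i = a) : ph encU encV (Sum.inr (i, a)) z = 1 := by
  classical
  show (if encV z i = a then (1 : ℝ) else 0) = 1
  rw [if_pos h]

theorem ph_inr_zero (encU : (Fin n → ZMod 2) → U → A) (encV : (Fin n → ZMod 2) → V → B) {i : V}
    {a : B} {z : Fin n → ZMod 2} (h : encV z i ≠ a) : ph encU encV (Sum.inr (i, a)) z = 0 := by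
  classical
  show (if encV z i = a then (1 : ℝ) else 0) = 0
  rw [if_neg h]

theorem exists_sdp [DecidableEq B] (hL : IsPseudoExpectation D0 L) (F : I → Clause kk n)
    (hF : ∀ i, ∀ u : (Fin n → ZMod 2) → ℝ, (∀ x, (Satisfies x (F i) → u x = 0) ∧
      (¬ Satisfies x (F i) → u x = 1)) → L u = 0)
    (u : E → U) (v : E → V) (π : E → A → B) (hR : Represents F D u v π) (hD : 3 * D ≤ D0)
    [Nonempty E] :
    ∃ (J : Type) (_ : Fintype J) (x : U → A → J → ℝ) (y : V → B → J → ℝ), SdpFeasible x y ∧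
      (Fintype.card E : ℝ) ≤ ∑ e, ∑ a, x (u e) a ⬝ᵥ y (v e) (π e a) := by
  classical
  obtain ⟨encU, encV, T, hU, hV, hT⟩ := hR
  obtain ⟨φ, hφ⟩ : ∃ φ, φ = ph encU encV := ⟨_, rfl⟩
  have hread : ∀ j, ∃ S : Finset (Fin n), S.card ≤ D ∧ Reads (φ j) S := by
    intro j
    rcases j with p | q
    · obtain ⟨S, h1, h2⟩ := hU p.1
      refine ⟨S, h1, fun x y hxy => ?_⟩
      have h3 := h2 x y hxy
      have h4 : encU x p.1 = encU y p.1 := h3
      rw [hφ]
      by_cases h5 : encU x p.1 = p.2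
      · rw [ph_inl_one encU encV h5, ph_inl_one encU encV (h4.symm.trans h5)]
      · rw [ph_inl_zero encU encV h5, ph_inl_zero encU encV (fun h => h5 (h4.trans h))]
    · obtain ⟨S, h1, h2⟩ := hV q.1
      refine ⟨S, h1, fun x y hxy => ?_⟩
      have h3 := h2 x y hxy
      have h4 : encV x q.1 = encV y q.1 := h3
      rw [hφ]
      by_cases h5 : encV x q.1 = q.2
      · rw [ph_inr_one encU encV h5, ph_inr_one encU encV (h4.symm.trans h5)]
      · rw [ph_inr_zero encU encV h5, ph_inr_zero encU encV (fun h => h5 (h4.trans h))]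
  have hlow : ∀ j, φ j ∈ LowDegree (Fin n) (ZMod 2) D0 := by
    intro j
    obtain ⟨S, h1, h2⟩ := hread j
    exact Submodule.subset_span ⟨S, by omega, fun x y h => h2 x y h⟩
  obtain ⟨w, hw⟩ := vectors L φ (by
    intro c
    refine hL.2 _ ?_
    have h1 : (fun z => ∑ j, c j * φ j z) = ∑ j, c j • φ j := by
      funext z
      rw [Finset.sum_apply]
      rfl
    rw [h1]
    exact Submodule.sum_mem _ fun j _ => Submodule.smul_mem _ _ (hlow j))
  have hnn : ∀ i j, 0 ≤ w i ⬝ᵥ w j := by
    intro i j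
    rw [hw]
    obtain ⟨S, h1, h2⟩ := hread i
    obtain ⟨S', h1', h2'⟩ := hread j
    have hmem : (fun z => φ i z * φ j z) ∈ LowDegree (Fin n) (ZMod 2) D0 := by
      refine Submodule.subset_span ⟨S ∪ S', ?_, fun x y h => ?_⟩
      · have := card_union_le S S'
        omega
      · show φ i x * φ j x = φ i y * φ j y
        rw [h2 x y fun k hk => h k (mem_union_left _ hk),
          h2' x y fun k hk => h k (mem_union_right _ hk)]
    have h3 := hL.2 _ hmem
    have h4 : (fun z => (fun z => φ i z * φ j z) z ^ 2) = fun z => φ i z * φ j z := by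
      funext z
      show (φ i z * φ j z) ^ 2 = φ i z * φ j z
      rw [mul_pow, hφ, ph_sq, ph_sq]
    rw [h4] at h3
    exact h3
  have key : ∀ {α β : Type} [Fintype α] [Fintype β] (f : α → (U × A) ⊕ (V × B))
      (g : β → (U × A) ⊕ (V × B)), (∑ a, w (f a)) ⬝ᵥ (∑ b, w (g b)) =
        L (fun z => (∑ a, φ (f a) z) * (∑ b, φ (g b) z)) := by
    intro α β _ _ f g
    have h1 : (fun z => (∑ a, φ (f a) z) * (∑ b, φ (g b) z)) =
        ∑ a, ∑ b, fun z => φ (f a) z * φ (g b) z := by
      funext z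
      rw [Finset.sum_apply, Finset.sum_mul_sum]
      refine Finset.sum_congr rfl fun a _ => ?_
      rw [Finset.sum_apply]
    rw [h1, map_sum, sum_dotProduct]
    refine Finset.sum_congr rfl fun a _ => ?_
    rw [map_sum, dotProduct_sum]
    exact Finset.sum_congr rfl fun b _ => hw _ _
  have hone : L (fun _ => (1 : ℝ) * 1) = 1 := by
    rw [mul_one]; exact hL.1
  have kUU : ∀ i i', (∑ a, w (Sum.inl (i, a))) ⬝ᵥ (∑ a, w (Sum.inl (i', a))) = 1 := by
    intro i i'
    rw [key (fun a => Sum.inl (i, a)) (fun a => Sum.inl (i', a))]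
    rw [← hone]
    congr 1
    funext z
    rw [hφ, ph_sumU, ph_sumU]
  have kUV : ∀ i i', (∑ a, w (Sum.inl (i, a))) ⬝ᵥ (∑ a, w (Sum.inr (i', a))) = 1 := by
    intro i i'
    rw [key (fun a => Sum.inl (i, a)) (fun a => Sum.inr (i', a))]
    rw [← hone]
    congr 1
    funext z
    rw [hφ, ph_sumU, ph_sumV]
  have kVV : ∀ i i', (∑ a, w (Sum.inr (i, a))) ⬝ᵥ (∑ a, w (Sum.inr (i', a))) = 1 := by
    intro i i'
    rw [key (fun a => Sum.inr (i, a)) (fun a => Sum.inr (i', a))]
    rw [← hone]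
    congr 1
    funext z
    rw [hφ, ph_sumV, ph_sumV]
  obtain ⟨e0⟩ := ‹Nonempty E›
  refine ⟨(U × A) ⊕ (V × B), inferInstance, fun i a => w (Sum.inl (i, a)),
    fun i b => w (Sum.inr (i, b)), ⟨∑ a, w (Sum.inl (u e0, a)), kUU _ _, ?_, ?_, ?_, ?_, ?_, ?_,
    ?_⟩, ?_⟩
  · intro i
    exact eq_of_dots (kUU _ _) (kUU _ _) (kUU _ _)
  · intro i
    refine (eq_of_dots (kUU _ _) (kUV _ _) (kVV _ _)).symm
  · intro i a a' haa
    rw [hw]
    have h1 : (fun z => φ (Sum.inl (i, a)) z * φ (Sum.inl (i, a')) z) = 0 := by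
      funext z
      rw [hφ, Pi.zero_apply]
      by_cases h : encU z i = a
      · rw [ph_inl_zero encU encV (fun h' => haa (h.symm.trans h')), mul_zero]
      · rw [ph_inl_zero encU encV h, zero_mul]
    rw [h1, map_zero]
  · intro i a a' haa
    rw [hw]
    have h1 : (fun z => φ (Sum.inr (i, a)) z * φ (Sum.inr (i, a')) z) = 0 := by
      funext z
      rw [hφ, Pi.zero_apply]
      by_cases h : encV z i = a
      · rw [ph_inr_zero encU encV (fun h' => haa (h.symm.trans h')), mul_zero]
      · rw [ph_inr_zero encU encV h, zero_mul]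
    rw [h1, map_zero]
  · intro i a i' a'
    exact hnn _ _
  · intro i a i' a'
    exact hnn _ _
  · intro i a i' a'
    exact hnn _ _
  · have hval : ∀ e, ∑ a, w (Sum.inl (u e, a)) ⬝ᵥ w (Sum.inr (v e, π e a)) = 1 := by
      intro e
      have h1 : ∑ a, w (Sum.inl (u e, a)) ⬝ᵥ w (Sum.inr (v e, π e a)) =
          L (fun z => if π e (encU z (u e)) = encV z (v e) then 1 else 0) := by
        have h2 : (fun z => if π e (encU z (u e)) = encV z (v e) then (1 : ℝ) else 0) =
            ∑ a, fun z => φ (Sum.inl (u e, a)) z * φ (Sum.inr (v e, π e a)) z := by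
          funext z
          rw [Finset.sum_apply, hφ]
          rw [Finset.sum_eq_single (encU z (u e))]
          · rw [ph_inl_one encU encV rfl, one_mul]
            by_cases h : π e (encU z (u e)) = encV z (v e)
            · rw [if_pos h, ph_inr_one encU encV h.symm]
            · rw [if_neg h, ph_inr_zero encU encV fun h' => h h'.symm]
          · intro a _ ha
            rw [ph_inl_zero encU encV fun h' => ha h'.symm, zero_mul]
          · intro h
            exact absurd (mem_univ _) h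
        rw [h2, map_sum]
        exact Finset.sum_congr rfl fun a _ => hw _ _
      rw [h1]
      obtain ⟨S, hS, hRS⟩ := hU (u e)
      obtain ⟨S', hS', hRS'⟩ := hV (v e)
      have hc1 : (S ∪ S' ∪ T e).card ≤ D0 := by
        refine (card_union_le _ _).trans ?_
        have h1 := card_union_le S S'
        have h4 := (hT e).1
        omega
      have hz := edge_zero hL F hF (fun z => encU z (u e)) (fun z => encV z (v e)) (π e) S S'
        (T e) hRS hRS' (hT e).2 hc1
      have h3 : (fun z => if π e (encU z (u e)) = encV z (v e) then (1 : ℝ) else 0) =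
          (fun _ => (1 : ℝ)) - fun z => if π e (encU z (u e)) = encV z (v e) then 0 else 1 := by
        funext z
        rw [Pi.sub_apply]
        split_ifs <;> norm_num
      rw [h3, map_sub, hz, hL.1, sub_zero]
    rw [Finset.sum_congr rfl fun e _ => hval e]
    simp

/-- every projection game with a local honest labeling has a good labeling -/
theorem good_labeling [DecidableEq B] (hL : IsPseudoExpectation D0 L) (F : I → Clause kk n)
    (hF : ∀ i, ∀ u : (Fin n → ZMod 2) → ℝ, (∀ x, (Satisfies x (F i) → u x = 0) ∧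
      (¬ Satisfies x (F i) → u x = 1)) → L u = 0)
    (u : E → U) (v : E → V) (π : E → A → B) (hR : Represents F D u v π) (hD : 3 * D ≤ D0)
    [Nonempty E] (t : ℕ) (ht : 0 < t)
    (hfib : ∀ e b, (univ.filter fun a => π e a = b).card ≤ t) (m : ℕ) :
    ∃ (M : U → A) (N : V → B),
      1 / (t : ℝ) ^ m * (1 / (Fintype.card U : ℝ) ^ (1 / (2 * m + 1 : ℝ))) *
        (Fintype.card E : ℝ) ≤ ((univ.filter fun e => π e (M (u e)) = N (v e)).card : ℝ) := by
  classical
  obtain ⟨J, _, x, y, hfeas, hval⟩ := exists_sdp hL F hF u v π hR hD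
  obtain ⟨M, N, h⟩ := _root_.Run7.h881.GP.perfect_gap u v π t ht (fun e b => by
    convert hfib e b) hfeas hval (_root_.Run7.h881.GP.exists_lab hfeas) m
  refine ⟨M, N, h.trans ?_⟩
  apply le_of_eq
  congr 2

end

/-- choice of the exponent -/
theorem choose_m (lam tau : ℝ) (hl : 0 ≤ lam) (ht : 0 < tau) :
    ∃ m : ℕ, lam ^ 2 / (2 * tau) ≤ (2 * m + 1) * (lam - m * tau) := by
  by_cases h : lam ≤ 2 * tau
  · refine ⟨0, ?_⟩
    rw [div_le_iff₀ (by positivity)]
    push_cast
    nlinarith
  · push Not at h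
    -- m = nearest integer to lam / (2 tau) - 1/4
    obtain ⟨x, hx⟩ : ∃ x : ℝ, x = lam / (2 * tau) := ⟨_, rfl⟩
    have hlam : lam = 2 * tau * x := by rw [hx]; field_simp
    have hx1 : 1 < x := by
      rw [hx, one_lt_div (by positivity)]; linarith
    obtain ⟨m, hm⟩ : ∃ m : ℕ, m = ⌊x + 1 / 4⌋₊ := ⟨_, rfl⟩
    have h1 : (m : ℝ) ≤ x + 1 / 4 := by rw [hm]; exact Nat.floor_le (by linarith)
    have h2 : x + 1 / 4 < m + 1 := by rw [hm]; exact Nat.lt_floor_add_one _
    refine ⟨m, ?_⟩
    rw [hlam]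
    have h3 : (2 * tau * x) ^ 2 / (2 * tau) = tau * (2 * x ^ 2) := by field_simp
    have h4 : (2 * (m : ℝ) + 1) * (2 * tau * x - m * tau) =
        tau * ((2 * m + 1) * (2 * x - m)) := by ring
    rw [h3, h4]
    refine mul_le_mul_of_nonneg_left ?_ ht.le
    obtain ⟨s, hs⟩ : ∃ s : ℝ, s = x - m := ⟨_, rfl⟩
    have h5 : (m : ℝ) = x - s := by rw [hs]; ring
    have h6 : -(1 / 4) ≤ s := by linarith
    have h7 : s < 3 / 4 := by linarith
    rw [h5]
    nlinarith [mul_nonneg (by linarith : (0:ℝ) ≤ s + 1/4) (by linarith : (0:ℝ) ≤ 3/4 - s)]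

end Pool.Agent.Run7.h250.LR
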