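import Pool.Agent.TH843.LR.Form
import Pool.Agent.Run7.h881.SE.Rel

/-!
Solutions of the Sherali-Adams programs for small-set expansion from pseudo-expectations of formulas
and local honest sets.
-/

set_option autoImplicit false
set_option linter.unusedSectionVars false

namespace Pool.Agent.Run7.h250.LR

open Finset Pool.Agent.W888.GX Pool.Agent.TH700.UG Run7.h881.SE

section
variable {n k D0 D K : ℕ} {I V : Type} [Fintype V] [DecidableEq V]
  {L : ((Fin n → ZMod 2) → ℝ) →ₗ[ℝ] ℝ}

theorem reads_mono {β : Type} {f : (Fin n → ZMod 2) → β} {S T : Finset (Fin n)} (h : S ⊆ T)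
    (hf : Reads f S) : Reads f T := fun x y hxy => hf x y fun i hi => hxy i (h hi)

theorem satOn_mono {F : I → Clause k n} {S T : Finset (Fin n)} (h : S ⊆ T) {x : Fin n → ZMod 2}
    (hx : SatOn F T x) : SatOn F S x := fun i hi => hx i fun l => h (hi l)

/-- functions of few vertices of the honest set are functions of few variables -/
theorem reads_enc (enc : (Fin n → ZMod 2) → Finset V) (A : V → Finset (Fin n))
    (hA : ∀ v, (A v).card ≤ D ∧ Reads (fun x => v ∈ enc x) (A v)) (W : Finset V)
    (f : Finset V → ℝ) (hf : DependsOn W f) :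
    (W.biUnion A).card ≤ W.card * D ∧ Reads (fun x => f (enc x)) (W.biUnion A) := by
  refine ⟨card_biUnion_le_card_mul _ _ _ fun v _ => (hA v).1, fun x y h => ?_⟩
  refine hf _ _ ?_
  ext v
  simp only [mem_inter]
  refine ⟨fun hv => ⟨?_, hv.2⟩, fun hv => ⟨?_, hv.2⟩⟩
  · have h1 := (hA v).2 x y fun i hi => h i (mem_biUnion.2 ⟨v, hv.2, hi⟩)
    have h2 : (v ∈ enc x) = (v ∈ enc y) := h1
    exact h2 ▸ hv.1
  · have h1 := (hA v).2 x y fun i hi => h i (mem_biUnion.2 ⟨v, hv.2, hi⟩)
    have h2 : (v ∈ enc x) = (v ∈ enc y) := h1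
    exact h2.symm ▸ hv.1

/-- The pseudo-expectation composed with local honest sets solves the linear program of level
`D0 / D`. -/
theorem sse_solution (hL : IsPseudoExpectation D0 L) (F : I → Clause k n)
    (hF : ∀ i, ∀ u : (Fin n → ZMod 2) → ℝ, (∀ x, (Satisfies x (F i) → u x = 0) ∧
      (¬ Satisfies x (F i) → u x = 1)) → L u = 0)
    (enc : (Fin n → ZMod 2) → Finset V) (hKD : K * D ≤ D0)
    (hmem : ∀ v, ∃ S : Finset (Fin n), S.card ≤ D ∧ Reads (fun x => v ∈ enc x) S)
    {Q : Type} [Fintype Q] (R : Q → Finset (Fin n)) (h : Q → (Fin n → ZMod 2) → ℝ) (s : ℝ)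
    (hR : ∀ q, (R q).card ≤ D ∧ Reads (h q) (R q) ∧ ∀ x, SatOn F (R q) x → h q x = 0)
    (hsize : ∀ x, ((enc x).card : ℝ) = s + ∑ q, h q x) :
    IsSheraliAdams K (L.comp (LinearMap.funLeft ℝ ℝ enc)) ∧
      HasSize K s (L.comp (LinearMap.funLeft ℝ ℝ enc)) := by
  classical
  choose A hA using hmem
  have happ : ∀ f : Finset V → ℝ, (L.comp (LinearMap.funLeft ℝ ℝ enc)) f =
      L (fun x => f (enc x)) := fun f => rfl
  refine ⟨⟨?_, ?_⟩, ?_⟩
  · rw [happ]
    exact hL.1
  · intro W hW f hf hpos
    rw [happ]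
    obtain ⟨h1, h2⟩ := reads_enc enc A hA W f hf
    refine pe_local hL F hF (W.biUnion A) ?_ _ h2 fun x _ => hpos _
    exact h1.trans ((Nat.mul_le_mul_right D hW).trans hKD)
  · intro W hW f hf
    rw [happ, happ]
    obtain ⟨h1, h2⟩ := reads_enc enc A hA W f hf
    have h3 : (fun x => ((enc x).card : ℝ) * f (enc x)) =
        s • (fun x => f (enc x)) + ∑ q, fun x => h q x * f (enc x) := by
      funext x
      rw [Pi.add_apply, Pi.smul_apply, Finset.sum_apply, smul_eq_mul, hsize x, add_mul, sum_mul]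
    rw [h3, map_add, map_smul, smul_eq_mul, map_sum]
    have h4 : ∀ q, L (fun x => h q x * f (enc x)) = 0 := by
      intro q
      have hcard : (R q ∪ W.biUnion A).card ≤ D0 := by
        refine (card_union_le _ _).trans ?_
        have h5 : (R q).card + (W.biUnion A).card ≤ D + W.card * D := by
          have := (hR q).1
          omega
        refine h5.trans (le_trans ?_ hKD)
        have h6 : W.card + 1 ≤ K := hW
        calc D + W.card * D = (W.card + 1) * D := by ring
          _ ≤ K * D := Nat.mul_le_mul_right D h6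
      have hr : Reads (fun x => h q x * f (enc x)) (R q ∪ W.biUnion A) := by
        intro x y hxy
        have h7 : h q x = h q y := (hR q).2.1 x y fun i hi => hxy i (mem_union_left _ hi)
        have h8 : f (enc x) = f (enc y) := h2 x y fun i hi => hxy i (mem_union_right _ hi)
        show h q x * f (enc x) = h q y * f (enc y)
        rw [h7, h8]
      have hz : ∀ x, SatOn F (R q ∪ W.biUnion A) x → h q x = 0 := fun x hx =>
        (hR q).2.2 x (satOn_mono subset_union_left hx)
      refine le_antisymm ?_ ?_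
      · have h9 := pe_local hL F hF _ hcard (fun x => -(h q x * f (enc x)))
          (fun x y hxy => by
            have := hr x y hxy
            show -(h q x * f (enc x)) = -(h q y * f (enc y))
            exact congrArg _ this)
          (fun x hx => by rw [hz x hx]; simp)
        have h10 : (fun x => -(h q x * f (enc x))) = (-1 : ℝ) • fun x => h q x * f (enc x) := by
          funext x
          simp
        rw [h10, map_smul, smul_eq_mul] at h9
        linarith
      · exact pe_local hL F hF _ hcard _ hr fun x hx => by rw [hz x hx]; simp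
    rw [sum_eq_zero fun q _ => h4 q, add_zero]

/-- the expected boundary -/
theorem sse_boundary (hL : IsPseudoExpectation D0 L) (F : I → Clause k n)
    (hF : ∀ i, ∀ u : (Fin n → ZMod 2) → ℝ, (∀ x, (Satisfies x (F i) → u x = 0) ∧
      (¬ Satisfies x (F i) → u x = 1)) → L u = 0)
    (enc : (Fin n → ZMod 2) → Finset V) (hD : D ≤ D0) (b : Finset V → ℝ)
    {P : Type} [Fintype P] (T : P → Finset (Fin n)) (g : P → (Fin n → ZMod 2) → ℝ) (s : ℝ)
    (hT : ∀ p, (T p).card ≤ D ∧ Reads (g p) (T p) ∧ ∀ x, SatOn F (T p) x → 0 ≤ g p x)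
    (hb : ∀ x, b (enc x) = s - ∑ p, g p x) :
    (L.comp (LinearMap.funLeft ℝ ℝ enc)) b ≤ s := by
  have happ : (L.comp (LinearMap.funLeft ℝ ℝ enc)) b = L (fun x => b (enc x)) := rfl
  rw [happ]
  have h1 : (fun x => b (enc x)) = s • (fun _ => (1 : ℝ)) + ∑ p, (-1 : ℝ) • fun x => g p x := by
    funext x
    rw [Pi.add_apply, Pi.smul_apply, Finset.sum_apply, smul_eq_mul, mul_one, hb x, sub_eq_add_neg,
      ← sum_neg_distrib]
    congr 1
    refine sum_congr rfl fun p _ => ?_
    rw [Pi.smul_apply, smul_eq_mul]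
    ring
  rw [h1, map_add, map_smul, smul_eq_mul, map_sum]
  have h2 : L (fun _ => (1 : ℝ)) = 1 := hL.1
  rw [h2, mul_one]
  have h3 : ∀ p, L ((-1 : ℝ) • fun x => g p x) ≤ 0 := by
    intro p
    rw [map_smul, smul_eq_mul]
    have := pe_local hL F hF (T p) ((hT p).1.trans hD) (g p) (hT p).2.1 (hT p).2.2
    have h4 : L (fun x => g p x) = L (g p) := rfl
    rw [h4]
    linarith
  have h5 := sum_nonpos fun p (_ : p ∈ (univ : Finset P)) => h3 p
  linarith

end

end Pool.Agent.Run7.h250.LR
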